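import Pool.Agent.Q289.PL.Two

/-!
# Uniqueness of the aggregate strategy in Population Lotto equilibria
-/

set_option autoImplicit false

open MeasureTheory ProbabilityTheory

namespace Pool.Agent.Results.MP_ed16aa_pr.UniqueAggregate

open Q289.PL

/-- two Nash equilibria for populations with the same budget distribution have the same aggregate
population strategy -/
theorem result {Ω Ω' : Type} [MeasurableSpace Ω] [MeasurableSpace Ω']
    (μ : Measure Ω) (μ' : Measure Ω') [IsProbabilityMeasure μ] [IsProbabilityMeasure μ']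
    (b : Ω → ℝ) (b' : Ω' → ℝ) (hbm : Measurable b) (hbm' : Measurable b')
    (hb : ∀ᵐ ω ∂μ, 0 < b ω) (hb' : ∀ᵐ ω ∂μ', 0 < b' ω) (hB : μ.map b = μ'.map b')
    (κ : Kernel Ω ℝ) (κ' : Kernel Ω' ℝ) [IsMarkovKernel κ] [IsMarkovKernel κ']
    (hN : IsNash μ b κ) (hN' : IsNash μ' b' κ') :
    aggregate μ κ = aggregate μ' κ' :=
  unique hbm hbm' hb hb' hN hN' hB

end Pool.Agent.Results.MP_ed16aa_pr.UniqueAggregate
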